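import Pool.Agent.Q3.CantorS.Main

/-!
# MP_ba8092_nt, Q1: Q-normal but not Q-distribution normal numbers have full dimension
-/

open Filter Topology Set
open Pool.Agent.Q3.CantorS

namespace Pool.Agent.Results.MP_ba8092_nt.NormalNotDistribution

/-- Let `Q = (q_n)` be a basic sequence (`q i` stands for `q_{i+1}`, all `q_n ≥ 2`) that is
infinite in limit and fully divergent (`Q_n^{(k)} = Qk q k n → ∞` for all `k ≥ 1`). Then the set of
the real `x` that are `Q`-normal of every order `k ≥ 1` and not `Q`-distribution normal has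
Hausdorff dimension one. -/
theorem result (q : ℕ → ℕ) (hq : ∀ n, 2 ≤ q n) (hlim : Tendsto q atTop atTop)
    (hdiv : ∀ k, 1 ≤ k → Tendsto (Qk q k) atTop atTop) :
    dimH {x : ℝ | (∀ k, 1 ≤ k → NormalOrder q k x) ∧ ¬ DistNormal q x} = 1 :=
  dimH_eq_one hq hlim hdiv

end Pool.Agent.Results.MP_ba8092_nt.NormalNotDistribution
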